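import Mathlib
import Pool.Agent.Run7.h191.Falc

set_option autoImplicit false

/-!
Distance sets in even dimensional spaces over finite fields: the threshold `d/2 + 1/3`.

For even `d ≥ 2` every set `E ⊂ F_q^d` with at least `3 q^(d/2 + 1/3)` points has at least
`c_d q` distances; no hypothesis on the additive energy is needed, so `α(d,4,s) ≤ d/2 + 1/3` for
every `s`.  For `d = 2` this is the known threshold `4/3`.  For even `d ≥ 4` it improves, for
`s < 3d/(6d+4)`, the bounds `d/(4s)` and `(d+1)/2`.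

The proof bounds the sums `∑_{‖ξ‖ = r} |Ê(ξ)|²`, `r ≠ 0`, by a restriction inequality for
nondegenerate diagonal quadratic forms, which is proved by induction from `d` to `d + 2`, averaging
over the null vectors `n` and passing to the spaces `n^⊥ / n`.
-/

open Finset

namespace Pool.Agent.Results.MP_546591_co.EvenThreshold

/-- The fourth additive energy `Λ₄(E)`: the number of `(x1, x2, x3, x4) ∈ E^4` with
`x1 + x2 = x3 + x4`. -/
def energy {G : Type} [AddCommGroup G] [DecidableEq G] (E : Finset G) : ℕ :=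
  ((E ×ˢ E ×ˢ E ×ˢ E).filter (fun s => s.1 + s.2.1 = s.2.2.1 + s.2.2.2)).card

/-- The distance set `Δ(E) = {‖x - y‖ : x, y ∈ E}`, where `‖x‖ = x_1^2 + ⋯ + x_d^2`. -/
def distSet {F : Type} [Field F] [DecidableEq F] {d : ℕ} (E : Finset (Fin d → F)) : Finset F :=
  (E ×ˢ E).image (fun s => ∑ i, (s.1 i - s.2 i) ^ 2)

/-- The property of `α` in the definition of `α(d,4,s)`: for every `C0 > 0` there are `C, c > 0`
such that, for every finite field `F` of odd characteristic (with `q` elements) and every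
`E ⊂ F^d` with `Λ₄(E) ≤ C0 (q^(-d) |E|^4 + |E|^(4-4s))` and `|E| ≥ C q^α`, one has
`|Δ(E)| ≥ c q`. -/
def Good (d : ℕ) (s α : ℝ) : Prop :=
  ∀ C0 : ℝ, 0 < C0 → ∃ C c : ℝ, 0 < C ∧ 0 < c ∧
    ∀ (F : Type) [Field F] [Fintype F] [DecidableEq F], (2 : F) ≠ 0 →
      ∀ E : Finset (Fin d → F),
        (energy E : ℝ) ≤ C0 * ((Fintype.card F : ℝ) ^ (-(d : ℝ)) * (E.card : ℝ) ^ 4 +
          (E.card : ℝ) ^ (4 - 4 * s)) →
        C * (Fintype.card F : ℝ) ^ α ≤ (E.card : ℝ) →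
        c * (Fintype.card F : ℝ) ≤ ((distSet E).card : ℝ)

/-- `α(d,4,s)`. -/
noncomputable def alpha (d : ℕ) (s : ℝ) : ℝ := sInf {α : ℝ | Good d s α}

/-- the constant `c_d` for `d = 2 k + 2` -/
noncomputable def cc (k : ℕ) : ℝ := 1 / (54 * (1 + Real.sqrt (3 * 100 ^ k)))

theorem cc_pos (k : ℕ) : 0 < cc k := by
  unfold cc
  positivity

theorem main_even (k : ℕ) (F : Type) [Field F] [Fintype F] [DecidableEq F] (h2 : (2 : F) ≠ 0)
    (E : Finset (Fin (2 * k + 2) → F))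
    (hE : 3 * (Fintype.card F : ℝ) ^ ((3 * ((2 * k + 2 : ℕ) : ℝ) + 2) / 6) ≤ (E.card : ℝ)) :
    cc k * (Fintype.card F : ℝ) ≤ ((distSet E).card : ℝ) := by
  have hF : ringChar F ≠ 2 := fun h => h2 ((ringChar.spec F 2).2 (by rw [h]))
  have hq1 := Run7.h191.Sph.one_le_card_real (F := F)
  have hq := Run7.h191.Sph.card_pos_real (F := F)
  have hE1 : 3 * (Fintype.card F : ℝ) ^ (k + 1) ≤ (E.card : ℝ) := by
    refine le_trans ?_ hE
    apply mul_le_mul_of_nonneg_left _ (by norm_num)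
    rw [← Real.rpow_natCast]
    apply Real.rpow_le_rpow_of_exponent_le hq1
    push_cast
    linarith
  have hE2 : (Fintype.card F : ℝ) ^ (3 * k + 4) ≤ (E.card : ℝ) ^ 3 := by
    have h1 : ((Fintype.card F : ℝ) ^ ((3 * ((2 * k + 2 : ℕ) : ℝ) + 2) / 6)) ^ 3 =
        (Fintype.card F : ℝ) ^ (3 * k + 4) := by
      rw [← Real.rpow_natCast, ← Real.rpow_mul hq.le, ← Real.rpow_natCast]
      congr 1
      push_cast
      ring
    have h3 : (0 : ℝ) ≤ (Fintype.card F : ℝ) ^ ((3 * ((2 * k + 2 : ℕ) : ℝ) + 2) / 6) :=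
      Real.rpow_nonneg hq.le _
    rw [← h1]
    apply pow_le_pow_left₀ h3
    linarith
  have hψ := AddChar.FiniteField.primitiveChar_to_Complex_isPrimitive F
  have h := Run7.h191.Sph.many_distances hF (k := k) (C := 3 * 100 ^ k) (by positivity)
    (Run7.h191.Sph.all_dims hF k) hψ (a := fun _ => 1) (fun _ => one_ne_zero) E hE1 hE2
  have hD : Run7.h191.Sph.DD (fun _ => (1 : F)) E = distSet E := by
    unfold Run7.h191.Sph.DD distSet Run7.h191.QD
    simp only [one_mul, Pi.sub_apply]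
  rw [hD] at h
  unfold cc
  rw [one_div, inv_mul_le_iff₀ (by positivity)]
  exact h

/-- For every even `d ≥ 2` there is `c > 0` such that every `E ⊂ F_q^d`, `q` odd, with
`|E| ≥ 3 q^((3d+2)/6)` has at least `c q` distances; consequently `(3d+2)/6 = d/2 + 1/3` has the
property in the definition of `α(d,4,s)` for every `s`, and `α(d,4,s) ≤ d/2 + 1/3`. -/
theorem result :
    (∀ d : ℕ, Even d → 2 ≤ d → ∃ c : ℝ, 0 < c ∧
      ∀ (F : Type) [Field F] [Fintype F] [DecidableEq F], (2 : F) ≠ 0 →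
        ∀ E : Finset (Fin d → F),
          3 * (Fintype.card F : ℝ) ^ ((3 * (d : ℝ) + 2) / 6) ≤ (E.card : ℝ) →
          c * (Fintype.card F : ℝ) ≤ ((distSet E).card : ℝ)) ∧
    (∀ d : ℕ, Even d → 2 ≤ d → ∀ s : ℝ, Good d s ((3 * (d : ℝ) + 2) / 6)) ∧
    (∀ d : ℕ, Even d → 2 ≤ d → ∀ s : ℝ, alpha d s ≤ (3 * (d : ℝ) + 2) / 6) := by
  have key : ∀ d : ℕ, Even d → 2 ≤ d → ∃ c : ℝ, 0 < c ∧
      ∀ (F : Type) [Field F] [Fintype F] [DecidableEq F], (2 : F) ≠ 0 →
        ∀ E : Finset (Fin d → F),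
          3 * (Fintype.card F : ℝ) ^ ((3 * (d : ℝ) + 2) / 6) ≤ (E.card : ℝ) →
          c * (Fintype.card F : ℝ) ≤ ((distSet E).card : ℝ) := by
    intro d hd hd2
    obtain ⟨e, he⟩ := hd
    obtain ⟨k, rfl⟩ : ∃ k, d = 2 * k + 2 := ⟨e - 1, by omega⟩
    exact ⟨cc k, cc_pos k, fun F _ _ _ h2 E hE => main_even k F h2 E hE⟩
  have key2 : ∀ d : ℕ, Even d → 2 ≤ d → ∀ s : ℝ, Good d s ((3 * (d : ℝ) + 2) / 6) := by
    intro d hd hd2 s C0 _
    obtain ⟨c, hc, h⟩ := key d hd hd2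
    exact ⟨3, c, by norm_num, hc, fun F _ _ _ h2 E _ hE => h F h2 E hE⟩
  refine ⟨key, key2, ?_⟩
  intro d hd hd2 s
  unfold alpha
  by_cases hb : BddBelow {α : ℝ | Good d s α}
  · exact csInf_le hb (key2 d hd hd2 s)
  · rw [Real.sInf_of_not_bddBelow hb]
    positivity

end Pool.Agent.Results.MP_546591_co.EvenThreshold
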