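import Mathlib
import Pool.Agent.Run7.h191.Asym

set_option autoImplicit false

/-!
Distance sets of (4,s)-Salem sets: a lower bound for the threshold in all dimensions `d ≥ 3`, which
exceeds the conjectured value for every even `d ≥ 4` and `s > (d+2)/(4d)`, and for every odd
`d ≥ 3` and `s > (d+1)/(4d)`.

Idea of the proof.  Let `K` be the field with `p` elements, `F` its quadratic extension, `q = p^2`,
and `S` the unit sphere of `K^d`.  For elements `w, w'` of `F` of norm one and `x, y ∈ S`,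
`‖w x - w' y‖ = w w' (Tr (w / w') - 2 x·y)` lies on the line `w w' K`.  So for a progression
`1, g, g^2, ..., g^(h-1)` of norm one elements, `2 h ≤ p + 1`, the union `T` of the `g^i S` has
`~ h p^(d-1)` points and at most `2 h p` distances.  Its energy is `O(h p^(3d-4))`: if
`w1 x1 + w2 x2 = w3 x3 + w4 x4`, then either `{w1, w2} = {w3, w4}`, or `w4` is one of three values
given by the other `w_i`, and the inner products `x1·x2`, `x3·x4` are determined by the `w_i`.
Then take `h = p^β`, `β` close to `1`, and a random subset of `T`.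
-/

open Finset

namespace Pool.Agent.Results.MP_546591_co.LowerBound

/-- The fourth additive energy `Λ₄(E)`: the number of `(x1, x2, x3, x4) ∈ E^4` with
`x1 + x2 = x3 + x4`. -/
def energy {G : Type} [AddCommGroup G] [DecidableEq G] (E : Finset G) : ℕ :=
  ((E ×ˢ E ×ˢ E ×ˢ E).filter (fun s => s.1 + s.2.1 = s.2.2.1 + s.2.2.2)).card

/-- The distance set `Δ(E) = {‖x - y‖ : x, y ∈ E}`, where `‖x‖ = x_1^2 + ⋯ + x_d^2`. -/
def distSet {F : Type} [Field F] [DecidableEq F] {d : ℕ} (E : Finset (Fin d → F)) : Finset F :=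
  (E ×ˢ E).image (fun s => ∑ i, (s.1 i - s.2 i) ^ 2)

/-- The property of `α` in the definition of `α(d,4,s)`: for every `C0 > 0` there are `C, c > 0`
such that, for every finite field `F` of odd characteristic (with `q` elements) and every
`E ⊂ F^d` with `Λ₄(E) ≤ C0 (q^(-d) |E|^4 + |E|^(4-4s))` and `|E| ≥ C q^α`, one has
`|Δ(E)| ≥ c q`. -/
def Good (d : ℕ) (s α : ℝ) : Prop :=
  ∀ C0 : ℝ, 0 < C0 → ∃ C c : ℝ, 0 < C ∧ 0 < c ∧
    ∀ (F : Type) [Field F] [Fintype F] [DecidableEq F], (2 : F) ≠ 0 →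
      ∀ E : Finset (Fin d → F),
        (energy E : ℝ) ≤ C0 * ((Fintype.card F : ℝ) ^ (-(d : ℝ)) * (E.card : ℝ) ^ 4 +
          (E.card : ℝ) ^ (4 - 4 * s)) →
        C * (Fintype.card F : ℝ) ^ α ≤ (E.card : ℝ) →
        c * (Fintype.card F : ℝ) ≤ ((distSet E).card : ℝ)

/-- `α(d,4,s)`. -/
noncomputable def alpha (d : ℕ) (s : ℝ) : ℝ := sInf {α : ℝ | Good d s α}

/-- The conjectured value of `α(d,4,s)`. -/
noncomputable def conjectured (d : ℕ) (s : ℝ) : ℝ :=
  if d = 2 then 1 else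
  if Even d then (if s ≤ (d + 2) / (4 * d) then (d : ℝ) / 2 else (d + 2) / (8 * s)) else
  (d + 1) / (8 * s)

/-- `α(d,4,s)` is the infimum of a nonempty set. -/
theorem good_nonempty (d : ℕ) (s : ℝ) : Good d s d := by
  intro C0 _
  refine ⟨2, 1, by norm_num, by norm_num, ?_⟩
  intro F _ _ _ _ E _ hE
  exfalso
  have h1 : (E.card : ℝ) ≤ (Fintype.card F : ℝ) ^ d := by
    have : E.card ≤ Fintype.card F ^ d := by
      refine (Finset.card_le_univ E).trans ?_
      simp
    exact_mod_cast this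
  have h2 : (0 : ℝ) < (Fintype.card F : ℝ) ^ d := by
    have : 0 < Fintype.card F := Fintype.card_pos
    positivity
  rw [Real.rpow_natCast] at hE
  linarith

/-- For all `d ≥ 3` and `1/4 ≤ s ≤ 1/2`, `α(d,4,s) ≥ min(d/2, (d+3)/(8s))`.  This exceeds the
conjectured value for every even `d ≥ 4` and `s ∈ ((d+2)/(4d), 1/2]`, and for every odd `d ≥ 3` and
`s ∈ ((d+1)/(4d), 1/2]`. -/
theorem result :
    (∀ d : ℕ, 3 ≤ d → ∀ s : ℝ, 1 / 4 ≤ s → s ≤ 1 / 2 →
      min ((d : ℝ) / 2) ((d + 3) / (8 * s)) ≤ alpha d s) ∧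
    (∀ d : ℕ, 4 ≤ d → Even d → ∀ s : ℝ, ((d : ℝ) + 2) / (4 * d) < s → s ≤ 1 / 2 →
      conjectured d s < alpha d s) ∧
    (∀ d : ℕ, 3 ≤ d → Odd d → ∀ s : ℝ, ((d : ℝ) + 1) / (4 * d) < s → s ≤ 1 / 2 →
      conjectured d s < alpha d s) := by
  have key : ∀ d : ℕ, 3 ≤ d → ∀ s : ℝ, 1 / 4 ≤ s → s ≤ 1 / 2 →
      min ((d : ℝ) / 2) ((d + 3) / (8 * s)) ≤ alpha d s := by
    intro d hd s h1 h2
    apply le_csInf ⟨(d : ℝ), good_nonempty d s⟩
    intro α hα
    exact Run7.h191.Sal.lower d hd s h1 h2 α hα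
  have hquarter : ∀ (d : ℕ) (u s : ℝ), 3 ≤ d → 0 ≤ u → ((d : ℝ) + u) / (4 * d) < s → 1 / 4 ≤ s := by
    intro d u s hd hu h
    have hdR : (3 : ℝ) ≤ d := by exact_mod_cast hd
    refine le_trans ?_ h.le
    rw [div_le_div_iff₀ (by norm_num) (by linarith)]
    linarith
  have hmin : ∀ (d : ℕ) (u s : ℝ), 3 ≤ d → 0 ≤ u → u < 3 → ((d : ℝ) + u) / (4 * d) < s →
      ((d : ℝ) + u) / (8 * s) < min ((d : ℝ) / 2) ((d + 3) / (8 * s)) := by
    intro d u s hd hu hu3 h
    have hdR : (3 : ℝ) ≤ d := by exact_mod_cast hd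
    have hs0 : 0 < s := by
      have := hquarter d u s hd hu h
      linarith
    rw [lt_min_iff]
    constructor
    · rw [div_lt_iff₀ (by linarith)] at h
      rw [div_lt_div_iff₀ (by positivity) (by norm_num)]
      linarith
    · rw [div_lt_div_iff_of_pos_right (by positivity)]
      linarith
  refine ⟨key, ?_, ?_⟩
  · intro d hd hev s h1 h2
    have hc : conjectured d s = (d + 2) / (8 * s) := by
      unfold conjectured
      rw [if_neg (by omega), if_pos hev, if_neg (not_le.2 h1)]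
    rw [hc]
    exact lt_of_lt_of_le (hmin d 2 s (by omega) (by norm_num) (by norm_num) h1)
      (key d (by omega) s (hquarter d 2 s (by omega) (by norm_num) h1) h2)
  · intro d hd hodd s h1 h2
    have hc : conjectured d s = (d + 1) / (8 * s) := by
      unfold conjectured
      rw [if_neg (by omega), if_neg (by rw [Nat.not_even_iff_odd]; exact hodd)]
    rw [hc]
    exact lt_of_lt_of_le (hmin d 1 s hd (by norm_num) (by norm_num) h1)
      (key d hd s (hquarter d 1 s hd (by norm_num) h1) h2)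

end Pool.Agent.Results.MP_546591_co.LowerBound
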