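import Mathlib
import Pool.Agent.Run7.h191.Asym
import Pool.Agent.Run7.h191.Fraser

set_option autoImplicit false

/-!
Distance sets of (4,s)-Salem sets: `α(3,4,1/2) = 3/2` (the conjectured value is `1`).

The upper bound is Fraser's; the lower bound is given by subsets of the union of the `g^i S`,
`i < h`, `h ≤ (p+1)/2`, where `S` is the unit sphere of `F_p^3` and `g ∈ F_{p^2}` has order `p + 1`.
-/

open Finset

namespace Pool.Agent.Results.MP_546591_co.ValueDimThree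

/-- The fourth additive energy `Λ₄(E)`: the number of `(x1, x2, x3, x4) ∈ E^4` with
`x1 + x2 = x3 + x4`. -/
def energy {G : Type} [AddCommGroup G] [DecidableEq G] (E : Finset G) : ℕ :=
  ((E ×ˢ E ×ˢ E ×ˢ E).filter (fun s => s.1 + s.2.1 = s.2.2.1 + s.2.2.2)).card

/-- The distance set `Δ(E) = {‖x - y‖ : x, y ∈ E}`, where `‖x‖ = x_1^2 + ⋯ + x_d^2`. -/
def distSet {F : Type} [Field F] [DecidableEq F] {d : ℕ} (E : Finset (Fin d → F)) : Finset F :=
  (E ×ˢ E).image (fun s => ∑ i, (s.1 i - s.2 i) ^ 2)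

/-- The property of `α` in the definition of `α(d,4,s)`: for every `C0 > 0` there are `C, c > 0`
such that, for every finite field `F` of odd characteristic (with `q` elements) and every
`E ⊂ F^d` with `Λ₄(E) ≤ C0 (q^(-d) |E|^4 + |E|^(4-4s))` and `|E| ≥ C q^α`, one has
`|Δ(E)| ≥ c q`. -/
def Good (d : ℕ) (s α : ℝ) : Prop :=
  ∀ C0 : ℝ, 0 < C0 → ∃ C c : ℝ, 0 < C ∧ 0 < c ∧
    ∀ (F : Type) [Field F] [Fintype F] [DecidableEq F], (2 : F) ≠ 0 →
      ∀ E : Finset (Fin d → F),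
        (energy E : ℝ) ≤ C0 * ((Fintype.card F : ℝ) ^ (-(d : ℝ)) * (E.card : ℝ) ^ 4 +
          (E.card : ℝ) ^ (4 - 4 * s)) →
        C * (Fintype.card F : ℝ) ^ α ≤ (E.card : ℝ) →
        c * (Fintype.card F : ℝ) ≤ ((distSet E).card : ℝ)

/-- `α(d,4,s)`. -/
noncomputable def alpha (d : ℕ) (s : ℝ) : ℝ := sInf {α : ℝ | Good d s α}

/-- The value of `α(d,4,s)` for `d = 3`, `s = 1/2`. -/
theorem result : alpha 3 (1 / 2) = 3 / 2 := by
  have hup : Good 3 (1 / 2) (3 / 2) := Run7.h191.Sal.good_three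
  have hlow : ∀ α : ℝ, Good 3 (1 / 2) α → 3 / 2 ≤ α := by
    intro α hα
    have h := Run7.h191.Sal.lower 3 le_rfl (1 / 2) (by norm_num) le_rfl α hα
    refine le_trans ?_ h
    norm_num
  unfold alpha
  apply le_antisymm
  · exact csInf_le ⟨3 / 2, hlow⟩ hup
  · exact le_csInf ⟨3 / 2, hup⟩ hlow

end Pool.Agent.Results.MP_546591_co.ValueDimThree
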